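import Pool.Agent.V1180.PZg

/-!
# MP_86d647_an, Q1: yes

The negative eigenvalue of the logarithmic potential operator does not decrease under
polarization.
-/

namespace Pool.Agent.Results.MP_86d647_an.PolarizationInequality

open Pool.Agent.V1180.LP Pool.Agent.V1180.PZ

/-- For bounded open sets the negative eigenvalue is unique if it exists, `tau` is this eigenvalue
(and `0` if there is none), and `tau Ω ≤ tau (P_H Ω)` for every half-plane `H`. -/
theorem result : ∀ Ω : Set ℂ, IsOpen Ω → Bornology.IsBounded Ω →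
    ((∀ lam : ℝ, lam < 0 → IsEig Ω lam → tau Ω = lam) ∧
      ((∀ lam : ℝ, lam < 0 → ¬ IsEig Ω lam) → tau Ω = 0)) ∧
    ∀ (ω : ℂ) (c : ℝ), ‖ω‖ = 1 → tau Ω ≤ tau (polarize ω c Ω) :=
  fun _ hΩo hΩb => ⟨tau_spec hΩo hΩb, fun _ c hω => main hΩo hΩb hω c⟩

end Pool.Agent.Results.MP_86d647_an.PolarizationInequality
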